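import Mathlib
import Pool.Agent.H17.TR.Cograph
import Pool.Agent.H17.P3.Defs

set_option autoImplicit false

namespace Pool.Agent.H63.P3

variable {X : Type}

/-- an induced path -/
def P4 (A : X → X → Prop) (a b c d : X) : Prop :=
  A a b ∧ A b c ∧ A c d ∧ ¬ A a c ∧ ¬ A a d ∧ ¬ A b d

def Free (A : X → X → Prop) (D : Finset X) : Prop :=
  ∀ a ∈ D, ∀ b ∈ D, ∀ c ∈ D, ∀ d ∈ D, ¬ P4 A a b c d

def PairsIn (A : X → X → Prop) (D : Finset X) : Prop :=
  ∀ u ∈ D, ∀ v ∈ D, (A u u ↔ A v v) → (A u v ↔ ¬ A u u) →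
    ∃ g ∈ D, (A g g ↔ ¬ A u u) ∧ (A g u ↔ ¬ A u u) ∧ (A g v ↔ ¬ A u u) ∧
      ∀ y ∈ D, (A u y ↔ A v y) → (A g y ↔ A u y)

def Root (A : X → X → Prop) (D : Finset X) (x : X) : Prop :=
  x ∈ D ∧ ∀ y ∈ D, (A x y ↔ A x x)

/-- the complement relation -/
def Co (A : X → X → Prop) : X → X → Prop := fun x y => ¬ A x y

theorem co_sym {A : X → X → Prop} (hs : ∀ x y, A x y → A y x) : ∀ x y, Co A x y → Co A y x :=
  fun x y h h' => h (hs _ _ h')

theorem co_free {A : X → X → Prop} (hs : ∀ x y, A x y → A y x) {D : Finset X}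
    (hF : Free A D) : Free (Co A) D := by
  intro a ha b hb c hc d hd h
  obtain ⟨h1, h2, h3, h4, h5, h6⟩ := h
  simp only [Co, not_not] at h1 h2 h3 h4 h5 h6
  exact hF c hc a ha d hd b hb
    ⟨hs _ _ h4, h5, hs _ _ h6, h3, fun h => h2 (hs _ _ h), h1⟩

theorem co_pairs {A : X → X → Prop} {D : Finset X}
    (hP : PairsIn A D) : PairsIn (Co A) D := by
  intro u hu v hv h1 h2
  simp only [Co, not_not] at h1 h2
  obtain ⟨g, hg, g1, g2, g3, g4⟩ := hP u hu v hv (by tauto) (by tauto)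
  refine ⟨g, hg, ?_, ?_, ?_, ?_⟩
  · simp only [Co]; tauto
  · simp only [Co]; tauto
  · simp only [Co]; tauto
  · intro y hy h
    have := g4 y hy
    simp only [Co] at h ⊢
    tauto

theorem co_root {A : X → X → Prop} {D : Finset X} {x : X} (h : Root (Co A) D x) : Root A D x := by
  refine ⟨h.1, fun y hy => ?_⟩
  have := h.2 y hy
  simp only [Co] at this
  tauto

open Classical in
/-- the ball of radius two = the component -/
noncomputable def comp (A : X → X → Prop) (D : Finset X) (x : X) : Finset X :=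
  D.filter (fun v => v = x ∨ A x v ∨ ∃ w ∈ D, A x w ∧ A w v)

theorem mem_comp {A : X → X → Prop} {D : Finset X} {x v : X} :
    v ∈ comp A D x ↔ v ∈ D ∧ (v = x ∨ A x v ∨ ∃ w ∈ D, A x w ∧ A w v) := by
  classical
  simp [comp]

theorem comp_closed {A : X → X → Prop} {D : Finset X}
    (hF : Free A D) {x v v' : X} (hx : x ∈ D) (hv : v ∈ comp A D x) (hv' : v' ∈ D)
    (h : A v v') : v' ∈ comp A D x := by
  rw [mem_comp] at hv ⊢
  refine ⟨hv', ?_⟩
  obtain ⟨hvD, rfl | h1 | ⟨w, hw, h1, h2⟩⟩ := hv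
  · exact Or.inr (Or.inl h)
  · exact Or.inr (Or.inr ⟨v, hvD, h1, h⟩)
  · by_cases c1 : A x v
    · exact Or.inr (Or.inr ⟨v, hvD, c1, h⟩)
    by_cases c2 : A w v'
    · exact Or.inr (Or.inr ⟨w, hw, h1, c2⟩)
    by_cases c3 : A x v'
    · exact Or.inr (Or.inl c3)
    exact absurd ⟨h1, h2, h, c1, c3, c2⟩ (hF x hx w hw v hvD v' hv')

theorem self_comp {A : X → X → Prop} {D : Finset X} {x : X} (hx : x ∈ D) : x ∈ comp A D x :=
  mem_comp.2 ⟨hx, Or.inl rfl⟩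

theorem comp_sub {A : X → X → Prop} {D : Finset X} {x : X} (hx : x ∈ D) (B : X → Prop)
    (hB : ∀ u ∈ D, ∀ v ∈ D, B u → A u v → B v) (hxB : B x) : ∀ v ∈ comp A D x, B v := by
  intro v hv
  rw [mem_comp] at hv
  obtain ⟨hvD, rfl | h1 | ⟨w, hw, h1, h2⟩⟩ := hv
  · exact hxB
  · exact hB x hx v hvD hxB h1
  · exact hB w hw v hvD (hB x hx w hw hxB h1) h2

theorem comp_common {A : X → X → Prop} (hs : ∀ x y, A x y → A y x) {D : Finset X}
    (hF : Free A D) {x u v : X} (hx : x ∈ D) (hu : u ∈ comp A D x) (hv : v ∈ comp A D x) :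
    v = u ∨ A u v ∨ ∃ w ∈ D, A u w ∧ A w v := by
  have huD : u ∈ D := (mem_comp.1 hu).1
  have hxu : x ∈ comp A D u := by
    rw [mem_comp] at hu ⊢
    refine ⟨hx, ?_⟩
    obtain ⟨_, rfl | h1 | ⟨w, hw, h1, h2⟩⟩ := hu
    · exact Or.inl rfl
    · exact Or.inr (Or.inl (hs _ _ h1))
    · exact Or.inr (Or.inr ⟨w, hw, hs _ _ h2, hs _ _ h1⟩)
  have := comp_sub hx (fun t => t ∈ comp A D u)
    (fun a _ b hb h1 h2 => comp_closed hF huD h1 hb h2) hxu v hv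
  exact (mem_comp.1 this).2

theorem comp_pairs {A : X → X → Prop} (hs : ∀ x y, A x y → A y x) {D : Finset X}
    (hF : Free A D) (hP : PairsIn A D) {x : X} (hx : x ∈ D) : PairsIn A (comp A D x) := by
  intro u hu v hv h1 h2
  have huD : u ∈ D := (mem_comp.1 hu).1
  have hvD : v ∈ D := (mem_comp.1 hv).1
  obtain ⟨g, hg, g1, g2, g3, g4⟩ := hP u huD v hvD h1 h2
  refine ⟨g, ?_, g1, g2, g3, fun y hy => g4 y (mem_comp.1 hy).1⟩
  by_cases hl : A u u
  · -- loops one, not adjacent: common neighbour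
    have hnuv : ¬ A u v := by tauto
    rcases comp_common hs hF hx hu hv with rfl | h | ⟨w, hw, k1, k2⟩
    · exact absurd hl hnuv
    · exact absurd h hnuv
    · have hwK : w ∈ comp A D x := comp_closed hF hx hu hw k1
      have : A g w := by
        have := g4 w hw (by constructor <;> intro _ <;> [exact hs _ _ k2; exact k1])
        tauto
      exact comp_closed hF hx hwK hg (hs _ _ this)
  · have : A g u := by tauto
    exact comp_closed hF hx hu hg (hs _ _ this)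

theorem comp_free {A : X → X → Prop} {D : Finset X}
    (hF : Free A D) {x : X} : Free A (comp A D x) := by
  intro a ha b hb c hc d hd
  exact hF a (mem_comp.1 ha).1 b (mem_comp.1 hb).1 c (mem_comp.1 hc).1 d (mem_comp.1 hd).1

/-- a component with a root which is not a single vertex without loop has a full vertex -/
theorem full_of_root {A : X → X → Prop} (hs : ∀ x y, A x y → A y x) {D : Finset X}
    (hF : Free A D) {x z : X} (hx : x ∈ D) (hz : z ∈ D) (hxz : A x z)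
    (hr : ∃ r, Root A (comp A D x) r) :
    ∃ f ∈ D, A f f ∧ A f x ∧ ∀ u ∈ D, ∀ v ∈ D, A f u → A u v → A f v := by
  obtain ⟨r, hrK, hr⟩ := hr
  have hrD : r ∈ D := (mem_comp.1 hrK).1
  have hxK : x ∈ comp A D x := self_comp hx
  have hl : A r r := by
    by_contra hl
    have h0 : ∀ y ∈ comp A D x, ¬ A r y := fun y hy h => hl ((hr y hy).1 h)
    rcases (mem_comp.1 hrK).2 with rfl | h1 | ⟨w, hw, h1, h2⟩
    · exact h0 z (comp_closed hF hx hxK hz hxz) hxz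
    · exact h0 x hxK (hs _ _ h1)
    · exact h0 w (comp_closed hF hx hxK hw h1) (hs _ _ h2)
  have h1 : ∀ y ∈ comp A D x, A r y := fun y hy => (hr y hy).2 hl
  refine ⟨r, hrD, hl, h1 x hxK, fun u hu v hv k1 k2 => ?_⟩
  exact h1 v (comp_closed hF hx (comp_closed hF hx hrK hu k1) hv k2)

/-- the disconnected case of Claim A -/
theorem root_split {A : X → X → Prop} (hs : ∀ x y, A x y → A y x) {D : Finset X}
    (hF : Free A D) (hP : PairsIn A D)
    (ih : ∀ K : Finset X, K.card < D.card → K.Nonempty → Free A K → PairsIn A K →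
      ∃ x, Root A K x)
    {B : Finset X} (hBD : B ⊆ D) (hB0 : B.Nonempty) (hB1 : B ≠ D)
    (hB : ∀ u ∈ B, ∀ w ∈ D, w ∉ B → ¬ A u w) : ∃ x, Root A D x := by
  classical
  by_cases hiso : ∃ x ∈ D, ∀ y ∈ D, ¬ A x y
  · obtain ⟨x, hx, h⟩ := hiso
    exact ⟨x, hx, fun y hy => ⟨fun k => absurd k (h y hy), fun k => absurd k (h x hx)⟩⟩
  push Not at hiso
  have hcl : ∀ u ∈ D, ∀ v ∈ D, u ∈ B → A u v → v ∈ B := by
    intro u _ v hv hu h
    by_contra hvB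
    exact hB u hu v hv hvB h
  have hcl' : ∀ u ∈ D, ∀ v ∈ D, u ∉ B → A u v → v ∉ B := by
    intro u hu v hv huB h hvB
    exact huB (hcl v hv u hu hvB (hs _ _ h))
  obtain ⟨x₁, hx₁⟩ := hB0
  have hx₁D := hBD hx₁
  obtain ⟨x₂, hx₂D, hx₂⟩ : ∃ x ∈ D, x ∉ B := by
    by_contra hcon
    push Not at hcon
    exact hB1 (Finset.Subset.antisymm hBD hcon)
  have hc₁ : (comp A D x₁).card < D.card := by
    apply Finset.card_lt_card
    rw [Finset.ssubset_iff_of_subset (fun v hv => (mem_comp.1 hv).1)]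
    exact ⟨x₂, hx₂D, fun h => hx₂ (comp_sub hx₁D (fun t => t ∈ B) hcl hx₁ x₂ h)⟩
  have hc₂ : (comp A D x₂).card < D.card := by
    apply Finset.card_lt_card
    rw [Finset.ssubset_iff_of_subset (fun v hv => (mem_comp.1 hv).1)]
    exact ⟨x₁, hx₁D, fun h => (comp_sub hx₂D (fun t => t ∉ B) hcl' hx₂ x₁ h) hx₁⟩
  obtain ⟨z₁, hz₁, hxz₁⟩ := hiso x₁ hx₁D
  obtain ⟨z₂, hz₂, hxz₂⟩ := hiso x₂ hx₂D
  obtain ⟨f₁, hf₁, l₁, a₁, c₁⟩ := full_of_root hs hF hx₁D hz₁ hxz₁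
    (ih _ hc₁ ⟨x₁, self_comp hx₁D⟩ (comp_free hF) (comp_pairs hs hF hP hx₁D))
  obtain ⟨f₂, hf₂, l₂, a₂, c₂⟩ := full_of_root hs hF hx₂D hz₂ hxz₂
    (ih _ hc₂ ⟨x₂, self_comp hx₂D⟩ (comp_free hF) (comp_pairs hs hF hP hx₂D))
  have hf₁B : f₁ ∈ B := hcl x₁ hx₁D f₁ hf₁ hx₁ (hs _ _ a₁)
  have hf₂B : f₂ ∉ B := hcl' x₂ hx₂D f₂ hf₂ hx₂ (hs _ _ a₂)
  have hn : ¬ A f₁ f₂ := hB f₁ hf₁B f₂ hf₂ hf₂B
  obtain ⟨g, hg, g1, g2, g3, g4⟩ := hP f₁ hf₁ f₂ hf₂ (by tauto) (by tauto)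
  have k1 : ¬ A g f₁ := by tauto
  have k2 : ¬ A g f₂ := by tauto
  have k0 : ∀ y ∈ D, ¬ A g y := by
    intro y hy h
    by_cases b1 : A f₁ y
    · exact k1 (hs _ _ (c₁ y hy g hg b1 (hs _ _ h)))
    by_cases b2 : A f₂ y
    · exact k2 (hs _ _ (c₂ y hy g hg b2 (hs _ _ h)))
    have := g4 y hy (by tauto)
    tauto
  exact ⟨g, hg, fun y hy => ⟨fun k => absurd k (k0 y hy), fun k => absurd k (k0 g hg)⟩⟩

theorem split (A : X → X → Prop) (hs : ∀ x y, A x y → A y x) (D : Finset X) (h2 : 2 ≤ D.card)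
    (hF : Free A D) : ∃ B ⊆ D, B.Nonempty ∧ B ≠ D ∧
      ((∀ u ∈ B, ∀ w ∈ D, w ∉ B → ¬ A u w) ∨ (∀ u ∈ B, ∀ w ∈ D, w ∉ B → ¬ Co A u w)) := by
  classical
  let M : X → X → ZMod 2 := fun x y => if x ∈ D ∧ y ∈ D ∧ A x y then 1 else 0
  have hM : ∀ x y, M x y = if x ∈ D ∧ y ∈ D ∧ A x y then 1 else 0 := fun x y => rfl
  have h10 : (1 : ZMod 2) ≠ 0 := by decide
  have hM1 : ∀ x y, M x y = 1 ↔ (x ∈ D ∧ y ∈ D ∧ A x y) := by
    intro x y
    rw [hM]
    by_cases h : x ∈ D ∧ y ∈ D ∧ A x y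
    · simp [h]
    · rw [if_neg h]
      exact ⟨fun h' => absurd h'.symm h10, fun h' => absurd h' h⟩
  have hM0 : ∀ x y, M x y = 0 ↔ ¬ (x ∈ D ∧ y ∈ D ∧ A x y) := by
    intro x y
    rw [hM]
    by_cases h : x ∈ D ∧ y ∈ D ∧ A x y
    · rw [if_pos h]
      exact ⟨fun h' => absurd h' h10, fun h' => absurd h h'⟩
    · simp [h]
  have hsM : ∀ x y, M x y = M y x := by
    intro x y
    rw [hM, hM]
    by_cases h : x ∈ D ∧ y ∈ D ∧ A x y
    · rw [if_pos h, if_pos ⟨h.2.1, h.1, hs _ _ h.2.2⟩]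
    · rw [if_neg h, if_neg (fun h' => h ⟨h'.2.1, h'.1, hs _ _ h'.2.2⟩)]
  have hno : ∀ a b c d, ¬ Pool.Agent.H17.TR.IsP4 M a b c d := by
    intro a b c d h
    have e1 := (hM1 _ _).1 h.ab
    have e2 := (hM1 _ _).1 h.bc
    have e3 := (hM1 _ _).1 h.cd
    have e4 := (hM0 _ _).1 h.ac
    have e5 := (hM0 _ _).1 h.ad
    have e6 := (hM0 _ _).1 h.bd
    exact hF a e1.1 b e1.2.1 c e3.1 d e3.2.1 ⟨e1.2.2, e2.2.2, e3.2.2,
      fun k => e4 ⟨e1.1, e3.1, k⟩, fun k => e5 ⟨e1.1, e3.2.1, k⟩, fun k => e6 ⟨e1.2.1, e3.2.1, k⟩⟩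
  obtain ⟨B, hBD, hB0, hB1, s, hB⟩ :=
    Pool.Agent.H17.TR.seinsche M hsM hno D.card D rfl h2
  refine ⟨B, hBD, Finset.nonempty_iff_ne_empty.2 hB0, hB1, ?_⟩
  have hs01 : ∀ s : ZMod 2, s = 0 ∨ s = 1 := by decide
  rcases hs01 s with rfl | rfl
  · left
    intro u hu w hw hwB h
    exact (hM0 _ _).1 (hB u hu w hw hwB) ⟨hBD hu, hw, h⟩
  · right
    intro u hu w hw hwB h
    exact h ((hM1 _ _).1 (hB u hu w hw hwB)).2.2

/-- **Claim A** -/
theorem claimA : ∀ (n : ℕ) (A : X → X → Prop), (∀ x y, A x y → A y x) → ∀ D : Finset X,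
    D.card = n → D.Nonempty → Free A D → PairsIn A D → ∃ x, Root A D x := by
  intro n
  induction n using Nat.strong_induction_on with
  | _ n ih =>
    intro A hs D hn hD hF hP
    by_cases h2 : 2 ≤ D.card
    · obtain ⟨B, hBD, hB0, hB1, hB | hB⟩ := split A hs D h2 hF
      · exact root_split hs hF hP
          (fun K hK h0 hF' hP' => ih K.card (by omega) A hs K rfl h0 hF' hP') hBD hB0 hB1 hB
      · obtain ⟨x, hx⟩ := root_split (co_sym hs) (co_free hs hF) (co_pairs hP)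
          (fun K hK h0 hF' hP' => ih K.card (by omega) (Co A) (co_sym hs) K rfl h0 hF' hP')
          hBD hB0 hB1 hB
        exact ⟨x, co_root hx⟩
    · have h1 : D.card = 1 := by
        have := Finset.card_pos.2 hD
        omega
      obtain ⟨x, rfl⟩ := Finset.card_eq_one.1 h1
      exact ⟨x, by simp, fun y hy => by rw [Finset.mem_singleton] at hy; rw [hy]⟩

/-- the component version -/
theorem claimL (A : X → X → Prop) (hs : ∀ x y, A x y → A y x) (D : Finset X)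
    (hF : Free A D) (hP : PairsIn A D) {x z : X} (hx : x ∈ D) (hz : z ∈ D) (hxz : A x z) :
    ∃ f ∈ D, A f f ∧ A f x ∧ ∀ u ∈ D, ∀ v ∈ D, A f u → A u v → A f v :=
  full_of_root hs hF hx hz hxz
    (claimA _ A hs _ rfl ⟨x, self_comp hx⟩ (comp_free hF) (comp_pairs hs hF hP hx))

end Pool.Agent.H63.P3
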