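import Mathlib
import Pool.Agent.H17.P3.Defs
import Pool.Agent.H63.P3.ClaimA

set_option autoImplicit false

namespace Pool.Agent.H63.P3

variable {X : Type}

/-- a cylinder -/
def Cyl (A : X → X → Prop) (C : Finset X) : Prop :=
  ∃ P N : Set X, ∀ y, y ∈ C ↔ (∀ p ∈ P, A y p) ∧ ∀ p ∈ N, ¬ A y p

/-- every closed pair has a midpoint -/
def GP (A : X → X → Prop) : Prop :=
  ∀ u v, (A u u ↔ A v v) → (A u v ↔ ¬ A u u) →
    ∃ g, (A g g ↔ ¬ A u u) ∧ (A g u ↔ ¬ A u u) ∧ (A g v ↔ ¬ A u u) ∧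
      ∀ y, (A u y ↔ A v y) → (A g y ↔ A u y)

def Bad (A : X → X → Prop) (a b c d g : X) : Prop :=
  ¬ (A g a ↔ A g d) ∧ ¬ (A g b ↔ A g c)

theorem cyl_pairs {A : X → X → Prop} (hG : GP A) {C : Finset X} (hC : Cyl A C) : PairsIn A C := by
  obtain ⟨P, N, h⟩ := hC
  intro u hu v hv h1 h2
  obtain ⟨g, g1, g2, g3, g4⟩ := hG u v h1 h2
  refine ⟨g, ?_, g1, g2, g3, fun y _ => g4 y⟩
  rw [h] at hu hv ⊢
  refine ⟨fun p hp => ?_, fun p hp => ?_⟩
  · have a := hu.1 p hp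
    have b := hv.1 p hp
    exact (g4 p ⟨fun _ => b, fun _ => a⟩).2 a
  · have a := hu.2 p hp
    have b := hv.2 p hp
    exact fun k => a ((g4 p ⟨fun k' => absurd k' a, fun k' => absurd k' b⟩).1 k)

open Classical in
theorem cyl_nb {A : X → X → Prop} (hs : ∀ x y, A x y → A y x) {C : Finset X} (hC : Cyl A C)
    (w : X) : Cyl A (C.filter (fun y => A w y)) := by
  obtain ⟨P, N, h⟩ := hC
  refine ⟨insert w P, N, fun y => ?_⟩
  rw [Finset.mem_filter, h]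
  constructor
  · rintro ⟨⟨h1, h2⟩, h3⟩
    refine ⟨fun p hp => ?_, h2⟩
    rcases hp with rfl | hp
    · exact hs _ _ h3
    · exact h1 p hp
  · rintro ⟨h1, h2⟩
    exact ⟨⟨fun p hp => h1 p (Or.inr hp), h2⟩, hs _ _ (h1 w (Or.inl rfl))⟩

open Classical in
theorem cyl_nn {A : X → X → Prop} (hs : ∀ x y, A x y → A y x) {C : Finset X} (hC : Cyl A C)
    (w : X) : Cyl A (C.filter (fun y => ¬ A w y)) := by
  obtain ⟨P, N, h⟩ := hC
  refine ⟨P, insert w N, fun y => ?_⟩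
  rw [Finset.mem_filter, h]
  constructor
  · rintro ⟨⟨h1, h2⟩, h3⟩
    refine ⟨h1, fun p hp => ?_⟩
    rcases hp with rfl | hp
    · exact fun k => h3 (hs _ _ k)
    · exact h2 p hp
  · rintro ⟨h1, h2⟩
    exact ⟨⟨h1, fun p hp => h2 p (Or.inr hp)⟩, fun k => h2 w (Or.inl rfl) (hs _ _ k)⟩

/-- the data of a minimal cylinder -/
structure Min (A : X → X → Prop) (C : Finset X) : Prop where
  sym : ∀ x y, A x y → A y x
  gp : GP A
  cyl : Cyl A C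
  min : ∀ C' : Finset X, Cyl A C' → C' ⊆ C → C' ≠ C → Free A C'

theorem Min.pairs {A : X → X → Prop} {C : Finset X} (h : Min A C) : PairsIn A C :=
  cyl_pairs h.gp h.cyl

open Classical in
theorem Min.freeN {A : X → X → Prop} {C : Finset X} (h : Min A C) (w : X) {t : X} (ht : t ∈ C)
    (hwt : ¬ A w t) : Free A (C.filter (fun y => A w y)) := by
  refine h.min _ (cyl_nb h.sym h.cyl w) (Finset.filter_subset _ _) (fun he => ?_)
  rw [← he, Finset.mem_filter] at ht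
  exact hwt ht.2

open Classical in
theorem Min.freeNN {A : X → X → Prop} {C : Finset X} (h : Min A C) (w : X) {t : X} (ht : t ∈ C)
    (hwt : A w t) : Free A (C.filter (fun y => ¬ A w y)) := by
  refine h.min _ (cyl_nn h.sym h.cyl w) (Finset.filter_subset _ _) (fun he => ?_)
  rw [← he, Finset.mem_filter] at ht
  exact ht.2 hwt

/-- (1) -/
theorem one {A : X → X → Prop} {C : Finset X} (h : Min A C) {w t : X} (hw : w ∈ C)
    (hl : ¬ A w w) (ht : t ∈ C) (hwt : A w t) :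
    ∃ x ∈ C, A x x ∧ A w x ∧ ∀ y ∈ C, A w y → A x y := by
  classical
  obtain ⟨x, hx, hr⟩ := claimA _ A h.sym (C.filter (fun y => A w y)) rfl
    ⟨t, Finset.mem_filter.2 ⟨ht, hwt⟩⟩ (h.freeN w hw hl) (cyl_pairs h.gp (cyl_nb h.sym h.cyl w))
  rw [Finset.mem_filter] at hx
  by_cases hxx : A x x
  · exact ⟨x, hx.1, hxx, hx.2, fun y hy hwy => (hr y (Finset.mem_filter.2 ⟨hy, hwy⟩)).2 hxx⟩
  · exfalso
    obtain ⟨g, hg, g1, g2, g3, -⟩ := h.pairs w hw x hx.1 (by tauto) (by tauto)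
    have k1 : A g w := by tauto
    have k2 : A g x := by tauto
    exact hxx ((hr g (Finset.mem_filter.2 ⟨hg, h.sym _ _ k1⟩)).1 (h.sym _ _ k2))

/-- (2) -/
theorem two {A : X → X → Prop} {C : Finset X} (h : Min A C) {b c t : X} (hb : b ∈ C) (hc : c ∈ C)
    (hbc : A b c) (hbb : A b b) (hcc : A c c) (ht : t ∈ C) (hbt : A b t) (hct : ¬ A c t) :
    ∃ a ∈ C, ¬ A a a ∧ A b a ∧ ¬ A c a ∧ ∀ y ∈ C, A b y → ¬ A c y → ¬ A a y := by
  classical
  have hD : Cyl A ((C.filter (fun y => A b y)).filter (fun y => ¬ A c y)) :=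
    cyl_nn h.sym (cyl_nb h.sym h.cyl b) c
  have hm : ∀ y, y ∈ ((C.filter (fun y => A b y)).filter (fun y => ¬ A c y)) ↔
      y ∈ C ∧ A b y ∧ ¬ A c y := by
    intro y
    rw [Finset.mem_filter, Finset.mem_filter]
    tauto
  have hF : Free A ((C.filter (fun y => A b y)).filter (fun y => ¬ A c y)) := by
    refine h.min _ hD (fun y hy => ((hm y).1 hy).1) (fun he => ?_)
    rw [← he, hm] at hb
    exact hb.2.2 (h.sym _ _ hbc)
  obtain ⟨a, ha, hr⟩ := claimA _ A h.sym _ rfl ⟨t, (hm t).2 ⟨ht, hbt, hct⟩⟩ hF (cyl_pairs h.gp hD)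
  have ha' := (hm a).1 ha
  have hl : ¬ A a a := by
    intro hl
    have hac : ¬ A a c := fun k => ha'.2.2 (h.sym _ _ k)
    obtain ⟨g, hg, g1, g2, g3, g4⟩ := h.pairs a ha'.1 c hc (by tauto) (by tauto)
    have k1 : ¬ A g a := by tauto
    have k2 : ¬ A g c := by tauto
    have k3 : A a b := h.sym _ _ ha'.2.1
    have k4 : A g b := (g4 b hb ⟨fun _ => h.sym _ _ hbc, fun _ => k3⟩).2 k3
    have k5 := (hr g ((hm g).2 ⟨hg, h.sym _ _ k4, fun k => k2 (h.sym _ _ k)⟩)).2 hl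
    exact k1 (h.sym _ _ k5)
  exact ⟨a, ha'.1, hl, ha'.2.1, ha'.2.2, fun y hy k1 k2 k3 =>
    hl ((hr y ((hm y).2 ⟨hy, k1, k2⟩)).1 k3)⟩

/-- (3) -/
theorem three {A : X → X → Prop} {C : Finset X} (h : Min A C)
    (hnf : ∀ x ∈ C, ∃ y ∈ C, ¬ A x y) (hP : ¬ Free A C) :
    ∃ b ∈ C, ∃ d ∈ C, A b b ∧ (∀ x ∈ C, (∀ y ∈ C, A b y → A x y) → ∀ y ∈ C, A x y → A b y) ∧
      ¬ A d d ∧ ¬ A b d ∧ (∃ t ∈ C, A d t) ∧ ∀ y ∈ C, A d y → A b y := by
  classical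
  unfold Free at hP
  push Not at hP
  obtain ⟨p₁, hp₁, p₂, hp₂, p₃, hp₃, p₄, hp₄, hp⟩ := hP
  obtain ⟨b, hb, hmax⟩ := Finset.exists_max_image C
    (fun x => (C.filter (fun y => A x y)).card) ⟨p₁, hp₁⟩
  have hmx : ∀ x ∈ C, (∀ y ∈ C, A b y → A x y) → ∀ y ∈ C, A x y → A b y := by
    intro x hx hsub y hy hxy
    have hss : C.filter (fun y => A b y) ⊆ C.filter (fun y => A x y) := by
      intro t ht
      rw [Finset.mem_filter] at ht ⊢
      exact ⟨ht.1, hsub t ht.1 ht.2⟩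
    have heq := Finset.eq_of_subset_of_card_le hss (hmax x hx)
    have : y ∈ C.filter (fun y => A b y) := by
      rw [heq, Finset.mem_filter]
      exact ⟨hy, hxy⟩
    exact (Finset.mem_filter.1 this).2
  obtain ⟨t₀, ht₀, hbt₀⟩ : ∃ t ∈ C, A b t := by
    have h1 : 0 < (C.filter (fun y => A p₁ y)).card :=
      Finset.card_pos.2 ⟨p₂, Finset.mem_filter.2 ⟨hp₂, hp.1⟩⟩
    have h2 := hmax p₁ hp₁
    obtain ⟨t, ht⟩ := Finset.card_pos.1 (lt_of_lt_of_le h1 h2)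
    rw [Finset.mem_filter] at ht
    exact ⟨t, ht.1, ht.2⟩
  have hbb : A b b := by
    by_contra hbb
    obtain ⟨x, hx, k1, k2, k3⟩ := one h hb hbb ht₀ hbt₀
    exact hbb (hmx x hx k3 b hb (h.sym _ _ k2))
  obtain ⟨s₀, hs₀, hbs₀⟩ := hnf b hb
  have hF1 := h.freeN b hs₀ hbs₀
  have hF2 := h.freeNN b hb hbb
  have hin : ¬ (A b p₁ ∧ A b p₂ ∧ A b p₃ ∧ A b p₄) := fun k =>
    hF1 p₁ (Finset.mem_filter.2 ⟨hp₁, k.1⟩) p₂ (Finset.mem_filter.2 ⟨hp₂, k.2.1⟩)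
      p₃ (Finset.mem_filter.2 ⟨hp₃, k.2.2.1⟩) p₄ (Finset.mem_filter.2 ⟨hp₄, k.2.2.2⟩) hp
  have hout : ¬ (¬ A b p₁ ∧ ¬ A b p₂ ∧ ¬ A b p₃ ∧ ¬ A b p₄) := fun k =>
    hF2 p₁ (Finset.mem_filter.2 ⟨hp₁, k.1⟩) p₂ (Finset.mem_filter.2 ⟨hp₂, k.2.1⟩)
      p₃ (Finset.mem_filter.2 ⟨hp₃, k.2.2.1⟩) p₄ (Finset.mem_filter.2 ⟨hp₄, k.2.2.2⟩) hp
  obtain ⟨y, hy, z, hz, hby, hbz, hyz⟩ : ∃ y ∈ C, ∃ z ∈ C, A b y ∧ ¬ A b z ∧ A y z := by
    by_contra hcon
    push Not at hcon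
    have e1 : A b p₁ ↔ A b p₂ := by
      constructor
      · intro k
        by_contra k'
        exact hcon p₁ hp₁ p₂ hp₂ k k' hp.1
      · intro k
        by_contra k'
        exact hcon p₂ hp₂ p₁ hp₁ k k' (h.sym _ _ hp.1)
    have e2 : A b p₂ ↔ A b p₃ := by
      constructor
      · intro k
        by_contra k'
        exact hcon p₂ hp₂ p₃ hp₃ k k' hp.2.1
      · intro k
        by_contra k'
        exact hcon p₃ hp₃ p₂ hp₂ k k' (h.sym _ _ hp.2.1)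
    have e3 : A b p₃ ↔ A b p₄ := by
      constructor
      · intro k
        by_contra k'
        exact hcon p₃ hp₃ p₄ hp₄ k k' hp.2.2.1
      · intro k
        by_contra k'
        exact hcon p₄ hp₄ p₃ hp₃ k k' (h.sym _ _ hp.2.2.1)
    tauto
  obtain ⟨c, hc, hcc, hbc, hcz⟩ : ∃ c ∈ C, A c c ∧ A b c ∧ A c z := by
    by_cases hyy : A y y
    · exact ⟨y, hy, hyy, hby, hyz⟩
    · obtain ⟨x, hx, k1, k2, k3⟩ := one h hy hyy hz hyz
      exact ⟨x, hx, k1, h.sym _ _ (k3 b hb (h.sym _ _ hby)), k3 z hz hyz⟩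
  obtain ⟨d', hd', d1, d2, d3, d4⟩ := two h hc hb (h.sym _ _ hbc) hcc hbb hz hcz hbz
  obtain ⟨q, hq, q1, q2, q3⟩ := one h hd' d1 hc (h.sym _ _ d2)
  have hqc : A q c := q3 c hc (h.sym _ _ d2)
  have hbq : A b q := by
    by_contra k
    exact d4 q hq (h.sym _ _ hqc) k q2
  refine ⟨b, hb, ?_⟩
  by_cases hN : ∀ y ∈ C, A d' y → A b y
  · exact ⟨d', hd', hbb, hmx, d1, d3, ⟨c, hc, h.sym _ _ d2⟩, hN⟩
  push Not at hN
  obtain ⟨z', hz', k1, k2⟩ := hN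
  obtain ⟨f, hf, f1, f2, f3⟩ := claimL A h.sym (C.filter (fun y => ¬ A b y)) hF2
    (cyl_pairs h.gp (cyl_nn h.sym h.cyl b)) (x := d') (z := z')
    (Finset.mem_filter.2 ⟨hd', d3⟩) (Finset.mem_filter.2 ⟨hz', k2⟩) k1
  rw [Finset.mem_filter] at hf
  have hfb : ¬ A f b := fun k => hf.2 (h.sym _ _ k)
  obtain ⟨g, hg, g1, g2, g3, g4⟩ := h.pairs f hf.1 b hb (by tauto) (by tauto)
  have m1 : ¬ A g g := by tauto
  have m2 : ¬ A g f := by tauto
  have m3 : ¬ A g b := by tauto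
  have m3' : ¬ A b g := fun k => m3 (h.sym _ _ k)
  have hgG : ∀ y ∈ C, ¬ A b y → ¬ A g y := by
    intro y hy hby' hgy
    by_cases hfy : A f y
    · exact m2 (h.sym _ _ (f3 y (Finset.mem_filter.2 ⟨hy, hby'⟩) g
        (Finset.mem_filter.2 ⟨hg, m3'⟩) hfy (h.sym _ _ hgy)))
    · exact hfy ((g4 y hy ⟨fun k => absurd k hfy, fun k => absurd k hby'⟩).1 hgy)
  have hfq : A f q := h.sym _ _ (q3 f hf.1 (h.sym _ _ f2))
  have hgq : A g q := (g4 q hq ⟨fun _ => hbq, fun _ => hfq⟩).2 hfq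
  refine ⟨g, hg, hbb, hmx, m1, m3', ⟨q, hq, hgq⟩, fun y hy hgy => ?_⟩
  by_contra k
  exact hgG y hy k hgy

/-- (4) and (5) -/
theorem main {A : X → X → Prop} {C : Finset X} (h : Min A C)
    (hnf : ∀ x ∈ C, ∃ y ∈ C, ¬ A x y) (hP : ¬ Free A C) :
    ∃ a ∈ C, ∃ b ∈ C, ∃ c ∈ C, ∃ d ∈ C, P4 A a b c d ∧ ¬ A a a ∧ A b b ∧ A c c ∧ ¬ A d d ∧
      ∀ g ∈ C, ¬ Bad A a b c d g := by
  classical
  obtain ⟨b, hb, d, hd, hbb, hmx, hdd, hbd, ⟨t, ht, hdt⟩, hdb⟩ := three h hnf hP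
  obtain ⟨c, hc, hcc, hdc, hcN⟩ := one h hd hdd ht hdt
  have hbc : A b c := hdb c hc hdc
  have hcd : A c d := h.sym _ _ hdc
  obtain ⟨t', ht', hbt', hct'⟩ : ∃ t' ∈ C, A b t' ∧ ¬ A c t' := by
    by_contra hcon
    push Not at hcon
    exact hbd (hmx c hc hcon d hd hcd)
  obtain ⟨a, ha, haa, hba, hca, hiso⟩ := two h hb hc hbc hbb hcc ht' hbt' hct'
  have hda : ¬ A d a := fun k => hca (hcN a ha k)
  have hac : ¬ A a c := fun k => hca (h.sym _ _ k)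
  have had : ¬ A a d := fun k => hda (h.sym _ _ k)
  have hab : A a b := h.sym _ _ hba
  refine ⟨a, ha, b, hb, c, hc, d, hd, ⟨hab, hbc, hcd, hac, had, hbd⟩, haa, hbb, hcc, hdd, ?_⟩
  rintro g hg ⟨B1, B2⟩
  by_cases hgd : A g d
  · have hdg := h.sym _ _ hgd
    have h1 : A g b := h.sym _ _ (hdb g hg hdg)
    have h2 : A g c := h.sym _ _ (hcN g hg hdg)
    tauto
  have hga : A g a := by tauto
  by_cases hgb : A g b
  · have hgc : ¬ A g c := by tauto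
    exact hiso g hg (h.sym _ _ hgb) (fun k => hgc (h.sym _ _ k)) (h.sym _ _ hga)
  have hgc : A g c := by tauto
  have hdb' : ¬ A d b := fun k => hbd (h.sym _ _ k)
  have hdg' : ¬ A d g := fun k => hgd (h.sym _ _ k)
  have hE := h.freeNN d ht hdt
  obtain ⟨f, hf, f1, f2, f3⟩ := claimL A h.sym (C.filter (fun y => ¬ A d y)) hE
    (cyl_pairs h.gp (cyl_nn h.sym h.cyl d)) (x := a) (z := b)
    (Finset.mem_filter.2 ⟨ha, hda⟩) (Finset.mem_filter.2 ⟨hb, hdb'⟩) hab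
  rw [Finset.mem_filter] at hf
  have haE : a ∈ C.filter (fun y => ¬ A d y) := Finset.mem_filter.2 ⟨ha, hda⟩
  have hbE : b ∈ C.filter (fun y => ¬ A d y) := Finset.mem_filter.2 ⟨hb, hdb'⟩
  have hfb : A f b := f3 a haE b hbE f2 hab
  have hfg : A f g := f3 a haE g (Finset.mem_filter.2 ⟨hg, hdg'⟩) f2 (h.sym _ _ hga)
  have hfc : A f c := by
    by_contra k
    exact hiso f hf.1 (h.sym _ _ hfb) (fun k' => k (h.sym _ _ k')) (h.sym _ _ f2)
  obtain ⟨v, hv, hdv, hfv⟩ : ∃ v ∈ C, A d v ∧ ¬ A f v := by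
    by_contra hcon
    push Not at hcon
    have hsub : ∀ y ∈ C, A b y → A f y := by
      intro y hy hby
      by_cases k : A d y
      · exact hcon y hy k
      · exact f3 b hbE y (Finset.mem_filter.2 ⟨hy, k⟩) hfb hby
    exact hgb (h.sym _ _ (hmx f hf.1 hsub g hg hfg))
  have hfd : ¬ A f d := fun k => hf.2 (h.sym _ _ k)
  exact (h.freeN c ha hca) f (Finset.mem_filter.2 ⟨hf.1, h.sym _ _ hfc⟩)
    b (Finset.mem_filter.2 ⟨hb, h.sym _ _ hbc⟩) v (Finset.mem_filter.2 ⟨hv, hcN v hv hdv⟩)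
    d (Finset.mem_filter.2 ⟨hd, hcd⟩)
    ⟨hfb, hdb v hv hdv, h.sym _ _ hdv, hfv, hfd, hbd⟩

theorem co_gp {A : X → X → Prop} (hG : GP A) : GP (Co A) := by
  intro u v h1 h2
  simp only [Co, not_not] at h1 h2
  obtain ⟨g, g1, g2, g3, g4⟩ := hG u v (by tauto) (by tauto)
  refine ⟨g, ?_, ?_, ?_, ?_⟩
  · simp only [Co]; tauto
  · simp only [Co]; tauto
  · simp only [Co]; tauto
  · intro y h
    have := g4 y
    simp only [Co] at h ⊢
    tauto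

theorem co_cyl {A : X → X → Prop} {C : Finset X} (hC : Cyl A C) : Cyl (Co A) C := by
  obtain ⟨P, N, h⟩ := hC
  refine ⟨N, P, fun y => ?_⟩
  rw [h]
  simp only [Co, not_not]
  tauto

theorem co_co (A : X → X → Prop) : Co (Co A) = A := by
  funext x y
  simp [Co]

/-- the lemma for a minimal cylinder, without the hypothesis on full vertices -/
theorem main' {A : X → X → Prop} {C : Finset X} (h : Min A C) (hP : ¬ Free A C) :
    ∃ a ∈ C, ∃ b ∈ C, ∃ c ∈ C, ∃ d ∈ C, P4 A a b c d ∧ ¬ A a a ∧ A b b ∧ A c c ∧ ¬ A d d ∧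
      ∀ g ∈ C, ¬ Bad A a b c d g := by
  by_cases hnf : ∀ x ∈ C, ∃ y ∈ C, ¬ A x y
  · exact main h hnf hP
  push Not at hnf
  obtain ⟨x₀, hx₀, hx⟩ := hnf
  have hco : Min (Co A) C := by
    refine ⟨co_sym h.sym, co_gp h.gp, co_cyl h.cyl, fun C' hC' h1 h2 => ?_⟩
    have h3 : Cyl A C' := by
      have := co_cyl hC'
      rwa [co_co] at this
    exact co_free h.sym (h.min C' h3 h1 h2)
  have hnf' : ∀ x ∈ C, ∃ y ∈ C, ¬ Co A x y := by
    intro x hxC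
    refine ⟨x₀, hx₀, ?_⟩
    simp only [Co, not_not]
    exact h.sym _ _ (hx x hxC)
  have hP' : ¬ Free (Co A) C := by
    intro hF
    have := co_free (co_sym h.sym) hF
    rw [co_co] at this
    exact hP this
  obtain ⟨a, ha, b, hb, c, hc, d, hd, hp, l1, l2, l3, l4, hB⟩ := main hco hnf' hP'
  obtain ⟨h1, h2, h3, h4, h5, h6⟩ := hp
  simp only [Co, not_not] at h1 h2 h3 h4 h5 h6 l1 l2 l3 l4
  refine ⟨c, hc, a, ha, d, hd, b, hb, ⟨h.sym _ _ h4, h5, h.sym _ _ h6, h3,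
    fun k => h2 (h.sym _ _ k), h1⟩, l3, l1, l4, l2, fun g hg hbad => ?_⟩
  apply hB g hg
  unfold Bad at hbad ⊢
  simp only [Co]
  tauto

theorem z1 : ∀ a b : ZMod 2, (a = b) ↔ (a = 1 ↔ b = 1) := by decide
theorem z2 : ∀ a b : ZMod 2, (a ≠ b) ↔ (a = 1 ↔ ¬ b = 1) := by decide
theorem z3 : ∀ a b : ZMod 2, (a ≠ b) ↔ ¬ (a = 1 ↔ b = 1) := by decide
theorem z4 : ∀ a : ZMod 2, (a = 0) ↔ ¬ a = 1 := by decide

/-- **the matrix statement (P3)** -/
theorem p3 : Pool.Agent.H17.P3.P3 := by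
  classical
  intro X _ M hs hP hS a b c d hp
  haveI := Fintype.ofFinite X
  let A : X → X → Prop := fun x y => M x y = 1
  have hsA : ∀ x y, A x y → A y x := fun x y h => by
    change M y x = 1
    rw [hs]
    exact h
  have hG : GP A := by
    intro u v h1 h2
    obtain ⟨g, g1, g2, g3, g4⟩ := hP u v ((z1 _ _).2 h1) ((z2 _ _).2 h2)
    rw [z2] at g1
    rw [z1] at g2 g3
    refine ⟨g, g1, g2.trans g1, g3.trans g1, fun y hy => ?_⟩
    exact (z1 _ _).1 (g4 y ((z1 _ _).2 hy))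
  have hp4 : ∀ {a b c d : X}, Pool.Agent.H17.P3.IsP4 M a b c d → P4 A a b c d := by
    intro a b c d h
    exact ⟨h.ab, h.bc, h.cd, (z4 _).1 h.ac, (z4 _).1 h.ad, (z4 _).1 h.bd⟩
  -- a minimal cylinder with an induced path
  let S : Finset (Finset X) := Finset.univ.filter (fun C => Cyl A C ∧ ¬ Free A C)
  have hS0 : S.Nonempty := by
    refine ⟨Finset.univ, ?_⟩
    simp only [S, Finset.mem_filter, Finset.mem_univ, true_and]
    refine ⟨⟨∅, ∅, fun y => by simp⟩, fun hF => ?_⟩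
    exact hF a (Finset.mem_univ _) b (Finset.mem_univ _) c (Finset.mem_univ _) d
      (Finset.mem_univ _) (hp4 hp)
  obtain ⟨C, hCS, hmin⟩ := Finset.exists_min_image S Finset.card hS0
  simp only [S, Finset.mem_filter, Finset.mem_univ, true_and] at hCS
  have hM : Min A C := by
    refine ⟨hsA, hG, hCS.1, fun C' hC' h1 h2 => ?_⟩
    by_contra hF
    have := hmin C' (by
      simp only [S, Finset.mem_filter, Finset.mem_univ, true_and]
      exact ⟨hC', hF⟩)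
    exact h2 (Finset.eq_of_subset_of_card_le h1 this)
  obtain ⟨a, ha, b, hb, c, hc, d, hd, hq, l1, l2, l3, l4, hB⟩ := main' hM hCS.2
  obtain ⟨g, hg1, hg2⟩ := hS a b c d ⟨hq.1, hq.2.1, hq.2.2.1, (z4 _).2 hq.2.2.2.1,
    (z4 _).2 hq.2.2.2.2.1, (z4 _).2 hq.2.2.2.2.2⟩ ((z4 _).2 l1) l2 l3 ((z4 _).2 l4)
  have hgC : g ∈ C := by
    obtain ⟨P, N, hPN⟩ := hCS.1
    rw [hPN] at ha hb hc hd ⊢
    refine ⟨fun p hp => ?_, fun p hp => ?_⟩
    · have e1 : M a p = 1 := ha.1 p hp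
      have e2 : M b p = 1 := hb.1 p hp
      have e3 : M c p = 1 := hc.1 p hp
      have e4 : M d p = 1 := hd.1 p hp
      change M g p = 1
      rw [hg2 p (by rw [e1, e2]) (by rw [e1, e3]) (by rw [e1, e4]), e1]
    · have e1 : M a p = 0 := (z4 _).2 (ha.2 p hp)
      have e2 : M b p = 0 := (z4 _).2 (hb.2 p hp)
      have e3 : M c p = 0 := (z4 _).2 (hc.2 p hp)
      have e4 : M d p = 0 := (z4 _).2 (hd.2 p hp)
      apply (z4 _).1
      rw [hg2 p (by rw [e1, e2]) (by rw [e1, e3]) (by rw [e1, e4]), e1]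
  exact hB g hgC ⟨(z3 _ _).1 hg1.1, (z3 _ _).1 hg1.2⟩

end Pool.Agent.H63.P3
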